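import Pool.Agent.Q31.GLW.Stm

/-!
# TRF of the GLW project: transfinite recursion of length `ω₁`
-/

set_option autoImplicit false

namespace Pool.Agent.Q154.GLW

open Pool.Agent.Q31.GLW Cardinal

section
variable {G T : Type} [Group G]

lemma countable_closure {s : Set G} (hs : s.Countable) :
    ((Subgroup.closure s : Subgroup G) : Set G).Countable := by
  have : Countable s := hs.to_subtype
  have h : (Subgroup.closure s : Subgroup G) = (FreeGroup.lift (Subtype.val : s → G)).range := by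
    rw [FreeGroup.range_lift_eq_closure]
    simp
  rw [h]
  exact Set.countable_range _

lemma mono_cl {O : Type} [LinearOrder O] (f : T → O) (h : T → G) {σ τ : T} (hl : f σ ≤ f τ) :
    Subgroup.closure (h '' {ρ | f ρ ≤ f σ}) ≤ Subgroup.closure (h '' {ρ | f ρ ≤ f τ}) := by
  refine Subgroup.closure_mono (Set.image_mono fun ρ hρ => ?_)
  exact le_trans hρ hl

lemma directed {O : Type} [LinearOrder O] (f : T → O) (h : T → G) (S : Set T) (x : G)
    (hx : x ∈ Subgroup.closure (h '' S)) :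
    x = 1 ∨ ∃ σ ∈ S, x ∈ Subgroup.closure (h '' {ρ | f ρ ≤ f σ}) := by
  induction hx using Subgroup.closure_induction with
  | mem x hx =>
    obtain ⟨σ, hσ, rfl⟩ := hx
    exact Or.inr ⟨σ, hσ, Subgroup.subset_closure ⟨σ, le_refl _, rfl⟩⟩
  | one => exact Or.inl rfl
  | mul x y _ _ hx hy =>
    rcases hx with rfl | ⟨σ, hσ, hx⟩
    · rw [one_mul]; exact hy
    · rcases hy with rfl | ⟨τ, hτ, hy⟩
      · rw [mul_one]; exact Or.inr ⟨σ, hσ, hx⟩
      · rcases le_total (f σ) (f τ) with hl | hl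
        · exact Or.inr ⟨τ, hτ, mul_mem (mono_cl f h hl hx) hy⟩
        · exact Or.inr ⟨σ, hσ, mul_mem hx (mono_cl f h hl hy)⟩
  | inv x _ hx =>
    rcases hx with rfl | ⟨σ, hσ, hx⟩
    · exact Or.inl inv_one
    · exact Or.inr ⟨σ, hσ, inv_mem hx⟩

end

theorem t_TRF : S_TRF := by
  intro G T _ P sol hT hP1 hext
  obtain ⟨f⟩ : Nonempty (T ↪ (ℵ₁ : Cardinal).ord.ToType) := by
    have h0 : #T ≤ #(ℵ₁ : Cardinal).ord.ToType := by simpa using hT
    exact h0
  have hcount : ∀ τ : T, {σ : T | f σ < f τ}.Countable := by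
    intro τ
    have h1 : (Set.Iio (f τ)).Countable := by
      rw [Cardinal.countable_iff_lt_aleph_one]
      have h0 := Cardinal.mk_Iio_lt (f τ) (by simp)
      rwa [Cardinal.mk_ord_toType] at h0
    exact h1.preimage f.injective
  classical
  have wf : WellFounded fun σ τ : T => f σ < f τ := InvImage.wf f wellFounded_lt
  -- the recursion
  let F : (τ : T) → ((σ : T) → f σ < f τ → G) → G := fun τ g =>
    if H : ∃ h, sol τ h ∧ ∀ x ∈ Subgroup.closure
      (((Subgroup.closure {y | ∃ (σ : T) (hσ : f σ < f τ), y = g σ hσ} : Subgroup G) : Set G) ∪ {h}), P x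
    then H.choose else 1
  let h : T → G := wf.fix F
  have hset : ∀ τ : T, {y : G | ∃ (σ : T) (_ : f σ < f τ), y = h σ} = h '' {σ | f σ < f τ} := by
    intro τ
    ext y
    constructor
    · rintro ⟨σ, hσ, rfl⟩; exact ⟨σ, hσ, rfl⟩
    · rintro ⟨σ, hσ, rfl⟩; exact ⟨σ, hσ, rfl⟩
  have hh : ∀ τ : T, (∃ g, sol τ g ∧ ∀ x ∈ Subgroup.closure
      (((Subgroup.closure (h '' {σ | f σ < f τ}) : Subgroup G) : Set G) ∪ {g}), P x) →
      sol τ (h τ) ∧ ∀ x ∈ Subgroup.closure
      (((Subgroup.closure (h '' {σ | f σ < f τ}) : Subgroup G) : Set G) ∪ {h τ}), P x := by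
    intro τ H
    have e : h τ = F τ fun σ _ => h σ := wf.fix_eq F τ
    have H' : ∃ g, sol τ g ∧ ∀ x ∈ Subgroup.closure
      (((Subgroup.closure {y | ∃ (σ : T) (_ : f σ < f τ), y = h σ} : Subgroup G) : Set G) ∪ {g}),
        P x := by
      rw [hset]; exact H
    have e2 : h τ = H'.choose := by
      rw [e]
      exact dif_pos H'
    have e3 := H'.choose_spec
    rw [← e2, hset] at e3
    exact e3
  have key : ∀ τ : T, sol τ (h τ) ∧ ∀ x ∈ Subgroup.closure (h '' {ρ | f ρ ≤ f τ}), P x := by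
    intro τ
    induction τ using wf.induction with
    | _ τ ih =>
      have h1 : ∀ k ∈ Subgroup.closure (h '' {σ | f σ < f τ}), P k := by
        intro k hk
        rcases directed f h _ k hk with rfl | ⟨σ, hσ, hk'⟩
        · exact hP1
        · exact (ih σ hσ).2 k hk'
      obtain ⟨h2, h3⟩ := hh τ (hext _ (countable_closure ((hcount τ).image h)) h1 τ)
      refine ⟨h2, fun x hx => h3 x ?_⟩
      refine (Subgroup.closure_le _).2 ?_ hx
      rintro _ ⟨ρ, hρ, rfl⟩
      rcases lt_or_eq_of_le (show f ρ ≤ f τ from hρ) with hl | he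
      · exact Subgroup.subset_closure (Or.inl (Subgroup.subset_closure ⟨ρ, hl, rfl⟩))
      · have : ρ = τ := f.injective he
        subst this
        exact Subgroup.subset_closure (Or.inr rfl)
  refine ⟨Subgroup.closure (h '' Set.univ), ?_, fun τ => ⟨h τ, ?_, (key τ).1⟩⟩
  · intro x hx
    rcases directed f h _ x hx with rfl | ⟨σ, -, hx'⟩
    · exact hP1
    · exact (key σ).2 x hx'
  · exact Subgroup.subset_closure ⟨τ, Set.mem_univ _, rfl⟩

end Pool.Agent.Q154.GLW
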